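import Pool.Agent.H951R3.PB.Lang

/-!
# The dynamical Lang inequality for all rational maps, with constants depending on the number of
bad places
-/

set_option autoImplicit false

namespace Pool.Agent.Results.MP_4f5c90_nt.RationalMapsLowerBound

open Real NumberField Pool.Agent.H951R3.PB

universe u

/-- Let `P j` be finitely many integral polynomials in the coefficients of pairs of binary forms of
degree `d ≥ 2` such that `P j / Res ^ k` is a function on the moduli space of rational maps of
degree `d`. There is `C` such that for every number field `K` of degree at most `D`, every rational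
map `f` of degree `d` over `K` and every `x` in the projective line over `K` which is not
preperiodic, the canonical height of `x` is at least
`exp (- C (s + 1) log (s + 2)) * (1 + hmod f)`, with `hmod f` the height of the point
`[Res ^ k : P 1 : ... : P l]` and `s` the number of finite places at which `f` does not have
potentially good reduction. -/
theorem result (d : ℕ) (hd : 2 ≤ d) (D k l : ℕ)
    (P : Fin l → MvPolynomial (Fin 2 × Fin (d + 1)) ℤ) (hP : ∀ j, IsInv.{u} d k (P j)) :
    ∃ C : ℝ, 0 < C ∧ ∀ (K : Type u) [Field K] [NumberField K], Module.finrank ℚ K ≤ D →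
    ∀ f : Fin 2 → MvPolynomial (Fin 2) K, (∀ i, (f i).IsHomogeneous d) →
      (∀ x : Fin 2 → AlgebraicClosure K, (∀ i, MvPolynomial.aeval x (f i) = 0) → x = 0) →
    {v : FinitePlace K | ¬ PotGood v.val d f}.Finite ∧
    ∀ x : Fin 2 → K, x ≠ 0 → ¬ Pre f x →
      exp (-C * ({v : FinitePlace K | ¬ PotGood v.val d f}.ncard + 1) *
        log ({v : FinitePlace K | ¬ PotGood v.val d f}.ncard + 2)) * (1 + hmod d k l P f) ≤
        hcan d f x := by
  obtain ⟨C, hC, h⟩ := lang.{u} d hd D k l P hP
  exact ⟨C, hC, fun K _ _ hfin f hf hz => ⟨bad_finite (by omega) hf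
    (rs_ne_of_noZero (by omega) hf hz), h K hfin f hf hz⟩⟩

end Pool.Agent.Results.MP_4f5c90_nt.RationalMapsLowerBound
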